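import Pool.Agent.Helper61.QT.GoalsH
import Pool.Agent.Helper59.QS.OD2
import Pool.Agent.Helper23.QS.CM

/-!
# Project QT (MP_0ebdb3_gt), packet QT-K3: all solutions of the functional equation
-/

set_option autoImplicit false

open Set NormedSpace

namespace Pool.Agent.Helper24.QT

open Pool.Agent.Helper61.QS (V En tr)
open Pool.Agent.Helper61.QT (LoopsG G_K1 G_K2 G_K3)
open Pool.Agent.Helper23.QS

variable {k : ℕ}

theorem hd_pos (A : En k) (x : ℝ) :
    HasDerivAt (fun x : ℝ => exp (x • A)) (exp (x • A) * A) x := by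
  let _ : NormedAlgebra ℚ (En k) := NormedAlgebra.restrictScalars ℚ ℝ (En k)
  exact hasDerivAt_exp_smul_const A x

theorem hd_neg (A : En k) (x : ℝ) :
    HasDerivAt (fun x : ℝ => exp (-x • A)) (-(A * exp (-x • A))) x := by
  let _ : NormedAlgebra ℚ (En k) := NormedAlgebra.restrictScalars ℚ ℝ (En k)
  have h := (hasDerivAt_exp_smul_const' (𝕂 := ℝ) A (-x)).scomp x (hasDerivAt_neg x)
  have e : (fun x : ℝ => exp ((-x) • A)) = (fun u : ℝ => exp (u • A)) ∘ Neg.neg := rfl
  rw [e]
  simpa using h

theorem hd_neg' (A : En k) (x : ℝ) :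
    HasDerivAt (fun x : ℝ => exp (-x • A)) (exp (-x • A) * -A) x := by
  have h := hd_pos (-A) x
  have e : (fun x : ℝ => exp (x • -A)) = fun x : ℝ => exp (-x • A) := by
    funext y
    rw [smul_neg, neg_smul]
  rw [e] at h
  rwa [smul_neg, ← neg_smul] at h

theorem hd_two (A : En k) (x : ℝ) :
    HasDerivAt (fun x : ℝ => exp ((2 * x) • A)) (exp ((2 * x) • A) * ((2 : ℝ) • A)) x := by
  have h := hd_pos ((2 : ℝ) • A) x
  have e : (fun x : ℝ => exp (x • (2 : ℝ) • A)) = fun x : ℝ => exp ((2 * x) • A) := by
    funext y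
    rw [smul_smul, mul_comm]
  rw [e] at h
  rwa [smul_smul, mul_comm x 2] at h

theorem g_eq {A B C : En k} {n g : ℝ → En k} (hAB : A * B = B * A) (hCB : C * B = B * C)
    (hn : ∀ x, star (n x) = -n x) (hg : ∀ x, HasDerivAt g (n x * g x) x) (h0 : g 0 = 1)
    (hnx : ∀ x : ℝ, n x = -(B + C) + exp (-x • C) * A * exp (x • C)) (x : ℝ) :
    g x = exp (-x • (B + C)) * exp (x • A) := by
  obtain ⟨-, hu⟩ := Pool.Agent.Helper59.QS.goalOD2 k n g hn h0 hg
  have h := hu (fun x => exp (-x • (B + C)) * exp (x • A)) (fun x => by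
    have h1 := (hd_neg (B + C) x).mul (hd_pos A x)
    refine h1.congr_deriv ?_
    rw [hnx x]
    have e1 : exp (-x • (B + C)) = exp (-x • B) * exp (-x • C) := gex_split rfl hCB (-x)
    have e2 : exp (x • A) * A = A * exp (x • A) := (ex_comm rfl x).symm
    have e3 : exp (x • C) * exp (-x • C) = 1 := ex_mul_neg C x
    have e4 : exp (x • C) * exp (-x • B) = exp (-x • B) * exp (x • C) := by
      have h5 : B * exp (x • C) = exp (x • C) * B := ex_comm hCB.symm x
      exact ex_comm h5.symm (-x)
    have e5 : exp (-x • C) * exp (-x • B) = exp (-x • B) * exp (-x • C) := by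
      have h5 : B * exp (-x • C) = exp (-x • C) * B := ex_comm hCB.symm (-x)
      exact ex_comm h5.symm (-x)
    have e6 : A * exp (-x • B) = exp (-x • B) * A := ex_comm hAB (-x)
    have e7 : exp (-x • C) * A * exp (x • C) * (exp (-x • (B + C)) * exp (x • A)) =
        exp (-x • (B + C)) * (exp (x • A) * A) := by
      rw [e2, e1]
      calc exp (-x • C) * A * exp (x • C) * (exp (-x • B) * exp (-x • C) * exp (x • A))
          = exp (-x • C) * A * (exp (x • C) * exp (-x • B)) * exp (-x • C) * exp (x • A) := by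
            simp only [mul_assoc]
        _ = exp (-x • C) * (A * exp (-x • B)) * (exp (x • C) * exp (-x • C)) * exp (x • A) := by
            rw [e4]; simp only [mul_assoc]
        _ = (exp (-x • C) * exp (-x • B)) * A * exp (x • A) := by
            rw [e6, e3]; simp only [mul_assoc, mul_one]
        _ = _ := by rw [e5]; simp only [mul_assoc]
    rw [add_mul (-(B + C)), e7]
    simp only [neg_mul, mul_assoc]) x
  simp only [neg_zero, zero_smul, exp_zero, mul_one] at h
  exact h.symm

theorem v_eq {B C D : En k} {w v : ℝ → En k} (hCB : C * B = B * C) (hCD : C * D = D * C)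
    (hw : ∀ x, star (w x) = -w x) (hv : ∀ x, HasDerivAt v (v x * w x) x) (h0 : v 0 = 1)
    (hwx : ∀ y : ℝ, w y = (2 : ℝ) • C + B - exp (-y • B) * D * exp (y • B)) (x : ℝ) :
    v x = exp ((2 * x) • C) * exp (-x • D) * exp (x • B) := by
  obtain ⟨-, hu⟩ := Pool.Agent.Helper59.QS.goalOD2 k (fun x => -w x) (fun x => star (v x))
    (fun x => by rw [star_neg, hw]) (by rw [h0, star_one])
    (fun x => by
      have h1 := (hv x).star
      rwa [star_mul, hw] at h1)
  have h := hu (fun x => star (exp ((2 * x) • C) * exp (-x • D) * exp (x • B))) (fun x => by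
    have h1 := (((hd_two C x).mul (hd_neg' D x)).mul (hd_pos B x)).star
    refine h1.congr_deriv ?_
    have e0 : -w x = star (w x) := (hw x).symm
    rw [e0, ← star_mul]
    congr 1
    rw [hwx x]
    have c1 : exp (-x • D) * C = C * exp (-x • D) := (ex_comm hCD (-x)).symm
    have c2 : exp (x • B) * C = C * exp (x • B) := (ex_comm hCB x).symm
    have c3 : exp (x • B) * exp (-x • B) = 1 := ex_mul_neg B x
    rw [mul_sub, mul_add]
    have e1 : exp ((2 * x) • C) * exp (-x • D) * exp (x • B) * (exp (-x • B) * D * exp (x • B)) =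
        exp ((2 * x) • C) * exp (-x • D) * D * exp (x • B) := by
      calc _ = exp ((2 * x) • C) * exp (-x • D) * (exp (x • B) * exp (-x • B)) * D *
            exp (x • B) := by simp only [mul_assoc]
        _ = _ := by rw [c3, mul_one]
    have e2 : exp ((2 * x) • C) * exp (-x • D) * exp (x • B) * ((2 : ℝ) • C) =
        exp ((2 * x) • C) * ((2 : ℝ) • C) * exp (-x • D) * exp (x • B) := by
      rw [mul_smul_comm, mul_smul_comm, smul_mul_assoc, smul_mul_assoc]
      congr 1
      calc _ = exp ((2 * x) • C) * exp (-x • D) * (exp (x • B) * C) := by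
            simp only [mul_assoc]
        _ = exp ((2 * x) • C) * (exp (-x • D) * C) * exp (x • B) := by
            rw [c2]; simp only [mul_assoc]
        _ = _ := by rw [c1]; simp only [mul_assoc]
    rw [e1, e2]
    noncomm_ring) x
  simp only [mul_zero, neg_zero, zero_smul, exp_zero, mul_one, star_one] at h
  have h2 := congrArg star h
  simp only [star_star] at h2
  exact h2.symm

theorem goalK3 (hK1 : G_K1) (hK2 : G_K2) : G_K3 := by
  intro k g f v l hL
  obtain ⟨c, z, n, hc, hz, hn, hv, hg, hn', hz'⟩ := hK1 k g f v l hL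
  obtain ⟨A, B, C, D, hA, hB, hC, hD, hAB, hAD, hCB, hCD, hcz, hnx⟩ :=
    hK2 k c z n hc hz hn hn' hz'
  obtain ⟨hg0, hf0, hv0, hl0⟩ := hL.one
  have G := g_eq hAB hCB hn hg hg0 hnx
  have Vx := v_eq hCB hCD (w := fun x => c + z x) (fun x => by
    rw [star_add, hc, hz]; abel) hv hv0 hcz
  have split : ∀ x : ℝ, exp (x • (B + C)) = exp (x • B) * exp (x • C) := fun x =>
    gex_split rfl hCB x
  refine ⟨A, B, C, D, hA, hB, hC, hD, hAB, hAD, hCB, hCD, G, Vx, fun x => ?_, fun x => ?_⟩
  · have h := hL.rel x 0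
    rw [hf0, mul_one] at h
    have e : l x = v x * g x := by
      rw [show l x = l (x + ((2 : ℤ) : ℝ) * 0) by rw [mul_zero, add_zero], ← h]
      congr 2
      push_cast
      ring
    have c1 : exp (-x • D) * exp (-x • C) = exp (-x • C) * exp (-x • D) := by
      have h5 : D * exp (-x • C) = exp (-x • C) * D := ex_comm hCD.symm (-x)
      exact (ex_comm h5.symm (-x)).symm
    have c2 : exp ((2 * x) • C) * exp (-x • C) = exp (x • C) := by
      rw [← ex_add]
      congr 2
      ring
    rw [e, G, Vx, split (-x)]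
    calc _ = exp ((2 * x) • C) * exp (-x • D) * (exp (x • B) * exp (-x • B)) * exp (-x • C) *
          exp (x • A) := by simp only [mul_assoc]
      _ = exp ((2 * x) • C) * (exp (-x • D) * exp (-x • C)) * exp (x • A) := by
          rw [ex_mul_neg, mul_one]; simp only [mul_assoc]
      _ = (exp ((2 * x) • C) * exp (-x • C)) * exp (-x • D) * exp (x • A) := by
          rw [c1]; simp only [mul_assoc]
      _ = _ := by rw [c2]
  · have h := hL.rel (-2 * x) x
    have e1 : (-2 * x + ((2 : ℤ) : ℝ) * x) = 0 := by push_cast; ring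
    have e2 : (x + ((1 : ℤ) : ℝ) * (-2 * x)) = -x := by push_cast; ring
    rw [e1, e2, hl0, one_mul] at h
    rw [← h, G, Vx]
    have s1 : -(-2 * x) = 2 * x := by ring
    have s2 : 2 * -x = -(2 * x) := by ring
    have s3 : (-2 * x) = -(2 * x) := by ring
    rw [s1, split (2 * x), s2, s3, neg_neg]
    have c1 : exp (-x • B) * exp ((2 * x) • B) = exp (x • B) := by
      rw [← ex_add]
      congr 2
      ring
    have c2 : exp (x • B) * exp ((2 * x) • C) = exp ((2 * x) • C) * exp (x • B) := by
      have h5 : C * exp (x • B) = exp (x • B) * C := ex_comm hCB x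
      exact ex_comm h5.symm (2 * x)
    have c3 : exp (x • D) * exp ((2 * x) • C) = exp ((2 * x) • C) * exp (x • D) := by
      have h5 : C * exp (x • D) = exp (x • D) * C := ex_comm hCD x
      exact ex_comm h5.symm (2 * x)
    have c4 : exp (x • B) * exp (-(2 * x) • A) = exp (-(2 * x) • A) * exp (x • B) := by
      have h5 : A * exp (x • B) = exp (x • B) * A := ex_comm hAB x
      exact ex_comm h5.symm (-(2 * x))
    have c5 : exp (x • D) * exp (-(2 * x) • A) = exp (-(2 * x) • A) * exp (x • D) := by
      have h5 : A * exp (x • D) = exp (x • D) * A := ex_comm hAD x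
      exact ex_comm h5.symm (-(2 * x))
    calc _ = exp (-(2 * x) • C) * exp (x • D) * (exp (-x • B) * exp ((2 * x) • B)) *
          exp ((2 * x) • C) * exp (-(2 * x) • A) := by simp only [mul_assoc]
      _ = exp (-(2 * x) • C) * exp (x • D) * (exp (x • B) * exp ((2 * x) • C)) *
          exp (-(2 * x) • A) := by rw [c1]; simp only [mul_assoc]
      _ = exp (-(2 * x) • C) * (exp (x • D) * exp ((2 * x) • C)) * exp (x • B) *
          exp (-(2 * x) • A) := by rw [c2]; simp only [mul_assoc]
      _ = (exp (-(2 * x) • C) * exp ((2 * x) • C)) * exp (x • D) * (exp (x • B) *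
          exp (-(2 * x) • A)) := by rw [c3]; simp only [mul_assoc]
      _ = (exp (x • D) * exp (-(2 * x) • A)) * exp (x • B) := by
          rw [c4, ex_neg_mul, one_mul]; simp only [mul_assoc]
      _ = _ := by rw [c5]

end Pool.Agent.Helper24.QT
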